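import Mathlib

set_option autoImplicit false

open Set Topology

namespace Pool.Agent.H5.TE

universe u


abbrev II := unitInterval

variable {ι : Type u}

/-- The vertex of the Tychonoff cube given by a point of the Cantor cube. -/
noncomputable def emb (y : ι → Bool) : ι → II := fun i => if y i then 1 else 0

/-- the `n`-tuples that control the functional at `x` near `0`. -/
def Supp (Φ : C(ι → Bool, ℝ) → (ι → II) → ℝ) (n : ℕ) (δ : ℝ) (x : ι → II) :
    Set (Fin n → ι → Bool) :=
  {a | ∀ g : C(ι → Bool, ℝ), (∀ k, |g (a k)| < δ) → |Φ g x| ≤ 1 / 2}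

lemma isClosed_supp (Φ : C(ι → Bool, ℝ) → (ι → II) → ℝ) (h1 : ∀ f, Continuous (Φ f)) (n : ℕ)
    (δ : ℝ) : IsClosed {p : (ι → II) × (Fin n → ι → Bool) | p.2 ∈ Supp Φ n δ p.1} := by
  have : {p : (ι → II) × (Fin n → ι → Bool) | p.2 ∈ Supp Φ n δ p.1} =
     ⋂ g : C(ι → Bool, ℝ), ((⋃ k, {p : (ι → II) × (Fin n → ι → Bool) | δ ≤ |g (p.2 k)|}) ∪
      {p | |Φ g p.1| ≤ 1/2}) := by
    ext p
    simp only [Supp, mem_ofPred_eq, mem_iInter, mem_union, mem_iUnion]
    constructor
    · intro h g
      by_cases hg : ∀ k, |g (p.2 k)| < δ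
      · exact Or.inr (h g hg)
      · push Not at hg
        exact Or.inl hg
    · intro h g hg
      rcases h g with ⟨k, hk⟩ | h
      · exact absurd (hg k) (not_lt.2 hk)
      · exact h
  rw [this]
  refine isClosed_iInter fun g => IsClosed.union ?_ ?_
  · refine isClosed_iUnion_of_finite fun k => isClosed_le continuous_const ?_
    have : Continuous fun p : (ι → II) × (Fin n → ι → Bool) => p.2 k :=
      (continuous_apply k).comp continuous_snd
    exact (g.continuous.comp this).abs
  · exact isClosed_le ((h1 g).comp continuous_fst).abs continuous_const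

/-- the indicator of the cylinder of points agreeing with `v` on `b`. -/
noncomputable def ind (b : Finset ι) (v : ι → Bool) : C(ι → Bool, ℝ) where
  toFun := (⋂ i ∈ b, {y : ι → Bool | y i = v i}).indicator (fun _ => (1 : ℝ))
  continuous_toFun := by
    refine IsClopen.continuous_indicator ?_ continuous_const
    refine isClopen_biInter_finset fun i _ => ?_
    exact (isClopen_discrete {v i}).preimage (continuous_apply i)

lemma ind_eq_one {b : Finset ι} {v y : ι → Bool} (h : ∀ i ∈ b, y i = v i) : ind b v y = 1 := by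
  have : y ∈ (⋂ i ∈ b, {y : ι → Bool | y i = v i}) := by simpa using h
  simp only [ind, ContinuousMap.coe_mk]
  exact indicator_of_mem this _

lemma ind_eq_zero {b : Finset ι} {v y : ι → Bool} {i : ι} (hi : i ∈ b) (h : y i ≠ v i) :
    ind b v y = 0 := by
  have : y ∉ (⋂ i ∈ b, {y : ι → Bool | y i = v i}) := by
    simp only [mem_iInter, mem_ofPred_eq, not_forall]
    exact ⟨i, hi, h⟩
  simp only [ind, ContinuousMap.coe_mk]
  exact indicator_of_notMem this _

lemma ind_congr {b : Finset ι} {v w : ι → Bool} (h : ∀ i ∈ b, v i = w i) : ind b v = ind b w := by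
  ext y
  by_cases hy : ∀ i ∈ b, y i = v i
  · rw [ind_eq_one hy, ind_eq_one fun i hi => (hy i hi).trans (h i hi)]
  · push Not at hy
    obtain ⟨i, hi, hne⟩ := hy
    rw [ind_eq_zero hi hne, ind_eq_zero hi (h i hi ▸ hne)]

/-- Basic open boxes. -/
lemma exists_finset_of_isOpen {W : Set (ι → II)} (hW : IsOpen W) {x : ι → II} (hx : x ∈ W) :
    ∃ T : Finset ι, ∀ x' : ι → II, (∀ i ∈ T, x' i = x i) → x' ∈ W := by
  rw [isOpen_pi_iff] at hW
  obtain ⟨T, u, hu, hsub⟩ := hW x hx
  refine ⟨T, fun x' h => hsub fun i hi => ?_⟩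
  rw [h i hi]
  exact (hu i hi).2

lemma exists_vertex_finset [DecidableEq ι] (Φ : C(ι → Bool, ℝ) → (ι → II) → ℝ)
    (h1 : ∀ f, Continuous (Φ f))
    (h3 : ∀ f y, Φ f (emb y) = f y) (b : Finset ι) :
    ∃ T : Finset ι, b ⊆ T ∧ ∀ x : ι → II, (∀ i ∈ T, x i = 0 ∨ x i = 1) → ∀ v : ι → Bool,
      (∀ i ∈ b, x i = emb v i) → 1 / 2 < Φ (ind b v) x := by
  have hT : ∀ y : ι → Bool, ∃ T : Finset ι, ∀ x' : ι → II, (∀ i ∈ T, x' i = emb y i) →
      1 / 2 < Φ (ind b y) x' := by
    intro y
    have hW : IsOpen {x | 1 / 2 < Φ (ind b y) x} := isOpen_lt continuous_const (h1 _)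
    have hy : emb y ∈ {x | 1 / 2 < Φ (ind b y) x} := by
      simp only [mem_ofPred_eq]
      rw [h3, ind_eq_one fun _ _ => rfl]
      norm_num
    exact exists_finset_of_isOpen hW hy
  choose T hT using hT
  have hopen : ∀ y : ι → Bool, IsOpen (⋂ i ∈ (b ∪ T y), {y' : ι → Bool | y' i = y i}) := by
    intro y
    refine (isClopen_biInter_finset fun i _ => ?_).isOpen
    exact (isClopen_discrete {y i}).preimage (continuous_apply i)
  obtain ⟨s, hs⟩ := isCompact_univ.elim_finite_subcover
    (fun y : ι → Bool => ⋂ i ∈ (b ∪ T y), {y' : ι → Bool | y' i = y i}) hopen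
    (fun y _ => mem_iUnion.2 ⟨y, by simp⟩)
  refine ⟨b ∪ s.biUnion T, Finset.subset_union_left, ?_⟩
  intro x hx v hv
  classical
  set y' : ι → Bool := fun i => decide (x i = 1) with hy'
  have hxy : ∀ i ∈ b ∪ s.biUnion T, x i = emb y' i := by
    intro i hi
    rcases hx i hi with h | h
    · simp [emb, hy', h]
    · simp [emb, hy', h]
  obtain ⟨y, hys, hyy⟩ := mem_iUnion₂.1 (hs (mem_univ y'))
  simp only [mem_iInter, mem_ofPred_eq, Finset.mem_union] at hyy
  have hb : ∀ i ∈ b, v i = y' i := by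
    intro i hi
    have h1 := hxy i (Finset.mem_union_left _ hi)
    have h2 := hv i hi
    rw [h1] at h2
    simp only [emb] at h2
    cases hv1 : v i <;> cases hy1 : y' i <;> simp_all
  have : ind b v = ind b y := ind_congr fun i hi => (hb i hi).trans (hyy i (Or.inl hi))
  rw [this]
  apply hT
  intro i hi
  rw [hxy i (Finset.mem_union_right _ (Finset.mem_biUnion.2 ⟨y, hys, hi⟩))]
  simp only [emb]
  rw [hyy i (Or.inr hi)]

/-- Closing off a countable set under countably many operations. -/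
lemma closing {P : Type*} (supp s : P → Set ι) (hs : ∀ p, (s p).Countable)
    (hf : ∀ p, (supp p).Finite) (hc : ∀ J : Set ι, J.Countable → {p | supp p ⊆ J}.Countable)
    (J : Set ι) (hJ : J.Countable) :
    ∃ J' : Set ι, J ⊆ J' ∧ J'.Countable ∧ ∀ p, supp p ⊆ J' → s p ⊆ J' := by
  let K : ℕ → Set ι := fun k => Nat.rec J (fun _ L => L ∪ ⋃ p ∈ {p | supp p ⊆ L}, s p) k
  have hK0 : K 0 = J := rfl
  have hKs : ∀ k, K (k + 1) = K k ∪ ⋃ p ∈ {p | supp p ⊆ K k}, s p := fun k => rfl
  have hKc : ∀ k, (K k).Countable := by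
    intro k
    induction k with
    | zero => rw [hK0]; exact hJ
    | succ k ih =>
      rw [hKs]
      exact ih.union ((hc _ ih).biUnion fun p _ => hs p)
  have hmono : Monotone K := monotone_nat_of_le_succ fun k => by
    rw [hKs]; exact subset_union_left
  refine ⟨⋃ k, K k, ?_, countable_iUnion hKc, ?_⟩
  · rw [← hK0]; exact subset_iUnion K 0
  · intro p hp
    have : ∃ k, supp p ⊆ K k := by
      have h := (hf p).coe_toFinset ▸ hp
      have hdir : Directed (· ⊆ ·) K := hmono.directed_le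
      obtain ⟨k, hk⟩ := hdir.exists_mem_subset_of_finset_subset_biUnion h
      exact ⟨k, (hf p).coe_toFinset ▸ hk⟩
    obtain ⟨k, hk⟩ := this
    refine subset_trans ?_ (subset_iUnion K (k + 1))
    rw [hKs]
    exact subset_union_of_subset_right (subset_biUnion_of_mem (u := fun p => s p) hk) _

end Pool.Agent.H5.TE
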