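import Pool.Agent.H5.TE1

set_option autoImplicit false

open Set Topology

namespace Pool.Agent.H5.TE

universe u

variable {ι : Type u}

lemma root [Uncountable ι] (T : Finset ι → Finset ι) (m : ℕ) :
    ∃ Q : Set ι, Q.Countable ∧ ∀ J : Set ι, J.Countable → ∃ b : Finset ι, b.card = m ∧
      (∀ i ∈ b, i ∉ J) ∧ ∀ i ∈ T b, i ∈ J → i ∈ Q := by
  by_contra hcon
  push Not at hcon
  choose! J hJ hJb using hcon
  let K : ℕ → Set ι := fun k => Nat.rec ∅ (fun _ L => L ∪ J L) k
  have hKs : ∀ k, K (k + 1) = K k ∪ J (K k) := fun k => rfl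
  have hKc : ∀ k, (K k).Countable := by
    intro k
    induction k with
    | zero => exact countable_empty
    | succ k ih =>
      rw [hKs]
      exact ih.union (hJ _ ih)
  have hmono : Monotone K := monotone_nat_of_le_succ fun k => by
    rw [hKs]; exact subset_union_left
  have hinf : (⋃ k, K k)ᶜ.Infinite := by
    have h1 : ¬ (⋃ k, K k)ᶜ.Countable := by
      intro h
      have h2 := (countable_iUnion hKc).union h
      rw [union_compl_self] at h2
      exact not_countable (countable_univ_iff.1 h2)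
    exact fun h => h1 h.countable
  obtain ⟨b, hb, hbm⟩ := hinf.exists_subset_card_eq m
  have hbK : ∀ k, ∀ i ∈ b, i ∉ J (K k) := by
    intro k i hi hiJ
    have := hb hi
    apply this
    refine mem_iUnion.2 ⟨k + 1, ?_⟩
    rw [hKs]
    exact Or.inr hiJ
  have h := fun k => hJb (K k) (hKc k) b hbm (hbK k)
  choose f hfT hfJ hfK using h
  have hinj : Function.Injective f := by
    intro k l hkl
    by_contra hne
    rcases lt_or_gt_of_ne hne with hlt | hlt
    · apply hfK l
      rw [← hkl]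
      apply hmono (Nat.succ_le_of_lt hlt)
      change f k ∈ K (k + 1)
      rw [hKs]
      exact Or.inr (hfJ k)
    · apply hfK k
      rw [hkl]
      apply hmono (Nat.succ_le_of_lt hlt)
      change f l ∈ K (l + 1)
      rw [hKs]
      exact Or.inr (hfJ l)
  have : (range f).Finite := (T b).finite_toSet.subset (range_subset_iff.2 hfT)
  exact (infinite_range_of_injective hinj) this

lemma root_all [Uncountable ι] (T : Finset ι → Finset ι) :
    ∃ Q : Set ι, Q.Countable ∧ ∀ m : ℕ, ∀ J : Set ι, J.Countable → ∃ b : Finset ι, b.card = m ∧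
      (∀ i ∈ b, i ∉ J) ∧ ∀ i ∈ T b, i ∈ J → i ∈ Q := by
  choose Q hQ hQb using fun m => root T m
  refine ⟨⋃ m, Q m, countable_iUnion hQ, ?_⟩
  intro m J hJ
  obtain ⟨b, hb1, hb2, hb3⟩ := hQb m J hJ
  exact ⟨b, hb1, hb2, fun i hi hiJ => mem_iUnion.2 ⟨m, hb3 i hi hiJ⟩⟩

lemma pad (Φ : C(ι → Bool, ℝ) → (ι → II) → ℝ) {j j' : ℕ} (h : j ≤ j') {δ : ℝ} {x : ι → II}
    (hne : (Supp Φ j δ x).Nonempty) : (Supp Φ j' δ x).Nonempty := by
  obtain ⟨a, ha⟩ := hne
  refine ⟨fun k => if hk : k.1 < j then a ⟨k.1, hk⟩ else fun _ => false, fun g hg => ha g ?_⟩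
  intro k
  have := hg ⟨k.1, k.2.trans_le h⟩
  simpa using this

lemma exists_supp (Φ : C(ι → Bool, ℝ) → (ι → II) → ℝ)
    (h2 : ∀ x f, ∀ ε > 0, ∃ (A : Finset (ι → Bool)) (δ : ℝ), 0 < δ ∧ ∀ g : C(ι → Bool, ℝ),
      (∀ a ∈ A, |g a - f a| < δ) → |Φ g x - Φ f x| < ε) (h0 : ∀ x, Φ 0 x = 0) (x : ι → II) :
    ∃ n k : ℕ, (Supp Φ n (1 / ((k : ℝ) + 1)) x).Nonempty := by
  obtain ⟨A, δ, hδ, hA⟩ := h2 x 0 (1 / 2) (by norm_num)
  obtain ⟨k, hk⟩ := exists_nat_one_div_lt hδ
  refine ⟨A.card, k, fun i => (A.equivFin.symm i).1, fun g hg => ?_⟩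
  have := hA g (fun a ha => ?_)
  · rw [h0, sub_zero] at this
    exact this.le
  · have h3 := hg (A.equivFin ⟨a, ha⟩)
    simp only [Equiv.symm_apply_apply] at h3
    simp only [ContinuousMap.coe_zero, Pi.zero_apply, sub_zero]
    exact h3.trans hk

lemma subcube (Φ : C(ι → Bool, ℝ) → (ι → II) → ℝ) (h1 : ∀ f, Continuous (Φ f))
    (h2 : ∀ x f, ∀ ε > 0, ∃ (A : Finset (ι → Bool)) (δ : ℝ), 0 < δ ∧ ∀ g : C(ι → Bool, ℝ),
      (∀ a ∈ A, |g a - f a| < δ) → |Φ g x - Φ f x| < ε) (h0 : ∀ x, Φ 0 x = 0)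
    {Q : Set ι} (hQ : Q.Countable) :
    ∃ (n : ℕ) (δ : ℝ) (K : Set ι) (c : ι → II), 0 < δ ∧ K.Countable ∧ Q ⊆ K ∧ (∀ i ∈ Q, c i = 0) ∧
      (∀ x : ι → II, (∀ i ∈ K, x i = c i) → (Supp Φ n δ x).Nonempty) ∧
      (∀ x : ι → II, (∀ i ∈ K, x i = c i) → ∀ j < n, Supp Φ j δ x = ∅) := by
  classical
  let q : (ι → II) → (ι → II) := fun z i => if i ∈ Q then 0 else z i
  have hq : Continuous q := by
    refine continuous_pi fun i => ?_
    by_cases hi : i ∈ Q
    · simp only [q, hi, if_true]; exact continuous_const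
    · simp only [q, hi, if_false]; exact continuous_apply i
  let L : ℕ → ℕ → Set (ι → II) := fun n k => {z | (Supp Φ n (1 / ((k : ℝ) + 1)) (q z)).Nonempty}
  have hL : ∀ n k, IsClosed (L n k) := by
    intro n k
    have hc : IsClosed {p : (ι → II) × (Fin n → ι → Bool) |
        p.2 ∈ Supp Φ n (1 / ((k : ℝ) + 1)) (q p.1)} :=
      (isClosed_supp Φ h1 n (1 / ((k : ℝ) + 1))).preimage
        ((hq.comp continuous_fst).prodMk continuous_snd)
    have := isClosedMap_fst_of_compactSpace _ hc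
    convert this using 1
    ext z
    constructor
    · rintro ⟨a, ha⟩
      exact ⟨(z, a), ha, rfl⟩
    · rintro ⟨⟨z', a⟩, ha, rfl⟩
      exact ⟨a, ha⟩
  have hU : ⋃ p : ℕ × ℕ, L p.1 p.2 = univ := by
    refine eq_univ_of_forall fun z => ?_
    obtain ⟨n, k, h⟩ := exists_supp Φ h2 h0 (q z)
    exact mem_iUnion.2 ⟨(n, k), h⟩
  obtain ⟨⟨n₀, k₀⟩, hne₀⟩ := nonempty_interior_of_iUnion_of_closed (fun p : ℕ × ℕ => hL p.1 p.2) hU
  have hex : ∃ n, ∃ k, (interior (L n k)).Nonempty := ⟨n₀, k₀, hne₀⟩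
  obtain ⟨n, ⟨k, hk⟩, hmin⟩ : ∃ n, (∃ k, (interior (L n k)).Nonempty) ∧
      ∀ j < n, ∀ k, ¬ (interior (L j k)).Nonempty := by
    refine ⟨Nat.find hex, Nat.find_spec hex, fun j hj k hk => ?_⟩
    exact Nat.find_min hex hj ⟨k, hk⟩
  obtain ⟨U, hUo, ⟨w, hw⟩, hU1, hU2⟩ : ∃ U : Set (ι → II), IsOpen U ∧ U.Nonempty ∧
      (∀ z ∈ U, z ∈ L n k) ∧ ∀ z ∈ U, ∀ j < n, z ∉ L j k := by
    rcases Nat.eq_zero_or_pos n with hn | hn
    · exact ⟨interior (L n k), isOpen_interior, hk, fun z hz => interior_subset hz,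
        fun z _ j hj => by omega⟩
    · refine ⟨interior (L n k) ∩ (L (n - 1) k)ᶜ, isOpen_interior.inter (hL _ _).isOpen_compl, ?_,
        fun z hz => interior_subset hz.1, fun z hz j hj hzj => hz.2 ?_⟩
      · by_contra hemp
        rw [not_nonempty_iff_eq_empty, ← disjoint_iff_inter_eq_empty,
          disjoint_compl_right_iff_subset] at hemp
        apply hmin (n - 1) (by omega) k
        exact hk.mono (interior_maximal hemp isOpen_interior)
      · exact pad Φ (by omega) hzj
  obtain ⟨S, hS⟩ := exists_finset_of_isOpen hUo hw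
  have key : ∀ x : ι → II, (∀ i ∈ Q ∪ (S : Set ι), x i = if i ∈ Q then 0 else w i) →
      ∃ z ∈ U, q z = x := by
    intro x hx
    refine ⟨fun i => if i ∈ S then w i else x i, hS _ fun i hi => by simp [hi], ?_⟩
    funext i
    by_cases hi : i ∈ Q
    · simp only [q, hi, if_true]
      rw [hx i (Or.inl hi)]
      simp [hi]
    · simp only [q, hi, if_false]
      by_cases hiS : i ∈ S
      · simp only [hiS, if_true]
        rw [hx i (Or.inr hiS)]
        simp [hi]
      · simp [hiS]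
  refine ⟨n, 1 / ((k : ℝ) + 1), Q ∪ (S : Set ι), fun i => if i ∈ Q then 0 else w i, by positivity,
    hQ.union S.countable_toSet, subset_union_left, fun i hi => by simp [hi], ?_, ?_⟩
  · intro x hx
    obtain ⟨z, hz, rfl⟩ := key x hx
    exact hU1 z hz
  · intro x hx j hj
    obtain ⟨z, hz, rfl⟩ := key x hx
    exact not_nonempty_iff_eq_empty.1 (hU2 z hz j hj)

lemma finite_supp (Φ : C(ι → Bool, ℝ) → (ι → II) → ℝ)
    (h2 : ∀ x f, ∀ ε > 0, ∃ (A : Finset (ι → Bool)) (δ : ℝ), 0 < δ ∧ ∀ g : C(ι → Bool, ℝ),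
      (∀ a ∈ A, |g a - f a| < δ) → |Φ g x - Φ f x| < ε)
    {n : ℕ} {δ : ℝ} (hδ : 0 < δ) {x : ι → II} (hmin : ∀ j < n, Supp Φ j δ x = ∅) :
    (Supp Φ n δ x).Finite := by
  classical
  by_contra hinf
  obtain ⟨a, -, ha⟩ := Set.Infinite.exists_accPt_of_subset_isCompact (s := Supp Φ n δ x) hinf
    isCompact_univ (subset_univ _)
  rw [accPt_iff_nhds] at ha
  -- witnesses
  have hw : ∀ D : Finset (Fin n), D ≠ Finset.univ → ∃ (g : C(ι → Bool, ℝ)) (B : Finset (ι → Bool)),
      (∀ i ∈ D, |g (a i)| < δ) ∧ ∀ g' : C(ι → Bool, ℝ), (∀ y ∈ B, g' y = g y) → 1 / 2 < |Φ g' x| := by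
    intro D hD
    have hcard : (D.image a).card < n := by
      have h1 : D.card < n := by
        have := Finset.card_lt_univ_of_notMem (s := D) (x := (by
          have : ∃ i, i ∉ D := by
            by_contra hall
            push Not at hall
            exact hD (Finset.eq_univ_iff_forall.2 hall)
          exact this.choose)) (by
          have : ∃ i, i ∉ D := by
            by_contra hall
            push Not at hall
            exact hD (Finset.eq_univ_iff_forall.2 hall)
          exact this.choose_spec)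
        simpa using this
      exact Finset.card_image_le.trans_lt h1
    have hempty := hmin _ hcard
    have hnot : (fun i => ((D.image a).equivFin.symm i).1) ∉ Supp Φ (D.image a).card δ x := by
      rw [hempty]; exact notMem_empty _
    simp only [Supp, mem_ofPred_eq, not_forall] at hnot
    obtain ⟨g, hg, hg'⟩ := hnot
    rw [not_le] at hg'
    obtain ⟨B, η, hη, hB⟩ := h2 x g (|Φ g x| - 1 / 2) (by linarith)
    refine ⟨g, B, ?_, ?_⟩
    · intro i hi
      have h3 := hg ((D.image a).equivFin ⟨a i, Finset.mem_image_of_mem a hi⟩)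
      simpa using h3
    · intro g' hg'
      have h3 := hB g' (fun y hy => by rw [hg' y hy, sub_self, abs_zero]; exact hη)
      have h4 : |Φ g x| - |Φ g' x| ≤ |Φ g' x - Φ g x| := by
        rw [abs_sub_comm]; exact abs_sub_abs_le_abs_sub _ _
      linarith
  choose! g B hg hB using hw
  -- the neighbourhood
  set F : Finset (ι → Bool) := (Finset.univ.biUnion B) ∪ Finset.univ.image a with hF
  have hV : (⋂ i : Fin n, {a' : Fin n → ι → Bool | a' i ∉ F.erase (a i)}) ∈ 𝓝 a := by
    rw [Filter.iInter_mem]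
    intro i
    have ho : IsOpen {a' : Fin n → ι → Bool | a' i ∉ F.erase (a i)} := by
      have : IsClosed ((F.erase (a i) : Finset (ι → Bool)) : Set (ι → Bool)) :=
        (Finset.finite_toSet _).isClosed
      exact IsOpen.preimage (f := fun a' : Fin n → ι → Bool => a' i) (continuous_apply i)
        this.isOpen_compl
    exact ho.mem_nhds (by simp)
  obtain ⟨a', ⟨ha'V, ha'S⟩, hne⟩ := ha _ hV
  simp only [mem_iInter, mem_ofPred_eq, Finset.mem_erase, not_and] at ha'V
  set D : Finset (Fin n) := Finset.univ.filter fun i => a' i = a i with hD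
  have hDne : D ≠ Finset.univ := by
    intro h
    apply hne
    funext i
    have : i ∈ D := by rw [h]; exact Finset.mem_univ i
    exact (Finset.mem_filter.1 this).2
  have hout : ∀ i ∉ D, a' i ∉ F := by
    intro i hi
    apply ha'V
    intro h
    exact hi (Finset.mem_filter.2 ⟨Finset.mem_univ i, h⟩)
  -- separating function
  set Z : Finset (ι → Bool) := (Finset.univ \ D).image a' with hZ
  have hdisj : Disjoint ((Z : Finset (ι → Bool)) : Set (ι → Bool)) (F : Set (ι → Bool)) := by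
    rw [Finset.disjoint_coe, Finset.disjoint_left]
    intro y hy hyF
    obtain ⟨i, hi, rfl⟩ := Finset.mem_image.1 hy
    exact hout i (by simpa using hi) hyF
  obtain ⟨h, hh0, hh1, hh⟩ := exists_continuous_zero_one_of_isClosed
    (Z.finite_toSet.isClosed) (F.finite_toSet.isClosed) hdisj
  have hbig := hB D hDne (g D * h) (by
    intro y hy
    have : y ∈ F := Finset.mem_union_left _ (Finset.mem_biUnion.2 ⟨D, Finset.mem_univ _, hy⟩)
    have h1 := hh1 (Finset.mem_coe.2 this)
    simp only [ContinuousMap.coe_mul, Pi.mul_apply]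
    rw [h1]
    simp)
  have hsmall := ha'S (g D * h) (by
    intro i
    by_cases hi : i ∈ D
    · have h1 : a' i = a i := (Finset.mem_filter.1 hi).2
      have h2 : a i ∈ F := Finset.mem_union_right _ (Finset.mem_image_of_mem a (Finset.mem_univ i))
      have h3 := hh1 (Finset.mem_coe.2 h2)
      rw [h1]
      simp only [ContinuousMap.coe_mul, Pi.mul_apply]
      rw [h3]
      simpa using hg D hDne i hi
    · have h2 : a' i ∈ Z := Finset.mem_image_of_mem a' (by simpa using hi)
      have h3 := hh0 (Finset.mem_coe.2 h2)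
      simp only [ContinuousMap.coe_mul, Pi.mul_apply]
      rw [h3]
      simpa using hδ)
  linarith

end Pool.Agent.H5.TE
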