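import Pool.Agent.H5.TE2

set_option autoImplicit false

open Set Topology TopologicalSpace

namespace Pool.Agent.H5.TE

universe u

/-- A closed relation between compact spaces, with all fibres nonempty, contains a minimal one. -/
lemma min_rel {X Z : Type u} [TopologicalSpace X] [TopologicalSpace Z] [CompactSpace X]
    [CompactSpace Z] [T2Space X] [T2Space Z] (Γ : Set (X × Z)) (hΓ : IsClosed Γ)
    (hs : ∀ x, ∃ z, (x, z) ∈ Γ) :
    ∃ E : Set (X × Z), IsClosed E ∧ E ⊆ Γ ∧ (∀ x, ∃ z, (x, z) ∈ E) ∧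
      ∀ C : Set Z, IsOpen C → ∀ x z, z ∈ C → (x, z) ∈ E →
        x ∈ closure {x' | ∀ z', (x', z') ∈ E → z' ∈ C} := by
  have : CompactSpace Γ := isCompact_iff_compactSpace.1 hΓ.isCompact
  let π : Γ → X := fun p => p.1.1
  have hπ : Continuous π := continuous_fst.comp continuous_subtype_val
  have hπs : π.Surjective := fun x => by
    obtain ⟨z, hz⟩ := hs x
    exact ⟨⟨(x, z), hz⟩, rfl⟩
  obtain ⟨E0, hE0, hE0s, hZ⟩ := exists_compact_surjective_zorn_subset hπ hπs
  have hc : IsCompact E0 := isCompact_iff_compactSpace.2 hE0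
  refine ⟨Subtype.val '' E0, (hc.image continuous_subtype_val).isClosed, ?_, ?_, ?_⟩
  · rintro _ ⟨p, -, rfl⟩
    exact p.2
  · intro x
    have : x ∈ π '' E0 := by rw [hE0s]; exact mem_univ x
    obtain ⟨p, hp, rfl⟩ := this
    exact ⟨p.1.2, p, hp, rfl⟩
  · intro C hC x z hz hxz
    let ρ : E0 → X := E0.domRestrict π
    have hρ : Continuous ρ := hπ.comp continuous_subtype_val
    have hρs : ρ.Surjective := by
      intro x
      have : x ∈ π '' E0 := by rw [hE0s]; exact mem_univ x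
      obtain ⟨p, hp, rfl⟩ := this
      exact ⟨⟨p, hp⟩, rfl⟩
    have hG : IsOpen {e : E0 | e.1.1.2 ∈ C} :=
      hC.preimage (continuous_snd.comp (continuous_subtype_val.comp continuous_subtype_val))
    have h1 := image_subset_closure_compl_image_compl_of_isOpen hρ hρs hZ hG
    obtain ⟨p, hp, hpe⟩ := hxz
    have h2 : x ∈ ρ '' {e : E0 | e.1.1.2 ∈ C} := by
      refine ⟨⟨p, hp⟩, ?_, ?_⟩
      · simp only [mem_ofPred_eq, hpe]; exact hz
      · change p.1.1 = x
        rw [hpe]
    refine closure_mono ?_ (h1 h2)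
    intro x' hx' z' hz'
    obtain ⟨p', hp', hpe'⟩ := hz'
    by_contra hcon
    apply hx'
    refine ⟨⟨p', hp'⟩, ?_, ?_⟩
    · simp only [mem_compl_iff, mem_ofPred_eq, hpe']; exact hcon
    · change p'.1.1 = x'
      rw [hpe']

variable {ι : Type u} {n : ℕ}

/-- Boxes in the Tychonoff cube. -/
def box (N : Finset (ι × countableBasis II)) : Set (ι → II) := {z | ∀ p ∈ N, z p.1 ∈ (p.2 : Set II)}

/-- Cylinders in the space of `n`-tuples. -/
def cyl (C : Finset (Fin n × ι × Bool)) : Set (Fin n → ι → Bool) :=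
  {a | ∀ t ∈ C, a t.1 t.2.1 = t.2.2}

lemma exists_box {W : Set (ι → II)} (hW : IsOpen W) {z : ι → II} (hz : z ∈ W) :
    ∃ N : Finset (ι × countableBasis II), z ∈ box N ∧ box N ⊆ W := by
  classical
  rw [isOpen_pi_iff] at hW
  obtain ⟨T, w, hw, hsub⟩ := hW z hz
  have hv : ∀ i, ∃ v : countableBasis II, z i ∈ (v : Set II) ∧ (i ∈ T → (v : Set II) ⊆ w i) := by
    intro i
    by_cases hi : i ∈ T
    · obtain ⟨v, hv, hzv, hvw⟩ := (isBasis_countableBasis II).exists_subset_of_mem_open (hw i hi).2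
        (hw i hi).1
      exact ⟨⟨v, hv⟩, hzv, fun _ => hvw⟩
    · obtain ⟨v, hv, hzv, -⟩ := (isBasis_countableBasis II).exists_subset_of_mem_open
        (mem_univ (z i)) isOpen_univ
      exact ⟨⟨v, hv⟩, hzv, fun h => absurd h hi⟩
  choose v hv1 hv2 using hv
  refine ⟨T.image fun i => (i, v i), ?_, ?_⟩
  · intro p hp
    obtain ⟨i, -, rfl⟩ := Finset.mem_image.1 hp
    exact hv1 i
  · intro z' hz'
    apply hsub
    intro i hi
    exact hv2 i hi (hz' (i, v i) (Finset.mem_image_of_mem _ hi))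

lemma isClopen_cyl (C : Finset (Fin n × ι × Bool)) : IsClopen (cyl C) := by
  have : cyl C = ⋂ t ∈ C, {a : Fin n → ι → Bool | a t.1 t.2.1 = t.2.2} := by
    ext a; simp [cyl]
  rw [this]
  refine isClopen_biInter_finset fun t _ => ?_
  have hc : Continuous fun a : Fin n → ι → Bool => a t.1 t.2.1 :=
    (continuous_apply t.2.1).comp (continuous_apply t.1)
  exact (isClopen_discrete {t.2.2}).preimage hc

/-- The closing-off property of a set of coordinates. -/
def JClosed (E : Set ((ι → II) × (Fin n → ι → Bool))) (J : Set ι) : Prop :=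
  ∀ (N : Finset (ι × countableBasis II)) (C : Finset (Fin n × ι × Bool)), (∀ p ∈ N, p.1 ∈ J) →
    (∀ t ∈ C, t.2.1 ∈ J) → (box N ∩ {z | ∀ a, (z, a) ∈ E → a ∈ cyl C}).Nonempty →
    ∃ N' : Finset (ι × countableBasis II), (∀ p ∈ N', p.1 ∈ J) ∧ (box N').Nonempty ∧
      box N' ⊆ box N ∩ {z | ∀ a, (z, a) ∈ E → a ∈ cyl C}

lemma isOpen_core {E : Set ((ι → II) × (Fin n → ι → Bool))} (hE : IsClosed E)
    (C : Finset (Fin n × ι × Bool)) : IsOpen {z | ∀ a, (z, a) ∈ E → a ∈ cyl C} := by
  rw [← isClosed_compl_iff]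
  have h : IsClosed (E ∩ {p | p.2 ∉ cyl C}) :=
    hE.inter ((isClopen_cyl C).isOpen.isClosed_compl.preimage continuous_snd)
  have := isClosedMap_fst_of_compactSpace _ h
  convert this using 1
  ext z
  simp only [mem_compl_iff, mem_ofPred_eq, not_forall]
  constructor
  · rintro ⟨a, ha, ha'⟩
    exact ⟨(z, a), ⟨ha, ha'⟩, rfl⟩
  · rintro ⟨⟨z', a⟩, ⟨ha, ha'⟩, rfl⟩
    exact ⟨a, ha, ha'⟩

lemma isOpen_box (N : Finset (ι × countableBasis II)) : IsOpen (box N) := by
  have : box N = ⋂ p ∈ N, {z : ι → II | z p.1 ∈ (p.2 : Set II)} := by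
    ext z; simp [box]
  rw [this]
  refine isOpen_biInter_finset fun p _ => ?_
  exact (isOpen_of_mem_countableBasis p.2.2).preimage (continuous_apply p.1)

lemma exists_jclosed {E : Set ((ι → II) × (Fin n → ι → Bool))} (hE : IsClosed E) {J : Set ι}
    (hJ : J.Countable) : ∃ J' : Set ι, J ⊆ J' ∧ J'.Countable ∧ JClosed E J' := by
  classical
  have hex : ∀ p : Finset (ι × countableBasis II) × Finset (Fin n × ι × Bool),
      ∃ N' : Finset (ι × countableBasis II),
        (box p.1 ∩ {z | ∀ a, (z, a) ∈ E → a ∈ cyl p.2}).Nonempty → ((box N').Nonempty ∧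
        box N' ⊆ box p.1 ∩ {z | ∀ a, (z, a) ∈ E → a ∈ cyl p.2}) := by
    intro p
    by_cases h : (box p.1 ∩ {z | ∀ a, (z, a) ∈ E → a ∈ cyl p.2}).Nonempty
    · obtain ⟨z, hz⟩ := h
      obtain ⟨N', h1, h2⟩ := exists_box ((isOpen_box p.1).inter (isOpen_core hE p.2)) hz
      exact ⟨N', fun _ => ⟨⟨z, h1⟩, h2⟩⟩
    · exact ⟨∅, fun h' => absurd h' h⟩
  choose h hh using hex
  have hcount : ∀ L : Set ι, L.Countable →
      {p : Finset (ι × countableBasis II) × Finset (Fin n × ι × Bool) |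
        ((p.1.image Prod.fst ∪ p.2.image (fun t => t.2.1) : Finset ι) : Set ι) ⊆ L}.Countable := by
    intro L hL
    have c1 : {N : Finset (ι × countableBasis II) | ∀ p ∈ N, p.1 ∈ L}.Countable := by
      have hS : (L ×ˢ (univ : Set (countableBasis II))).Countable := hL.prod (to_countable _)
      have := (countable_ofPred_finite_subset hS).preimage
        (Finset.coe_injective (α := ι × countableBasis II))
      refine this.mono ?_
      intro N hN
      refine ⟨N.finite_toSet, fun p hp => ⟨hN p hp, mem_univ _⟩⟩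
    have c2 : {C : Finset (Fin n × ι × Bool) | ∀ t ∈ C, t.2.1 ∈ L}.Countable := by
      have hS : ((univ : Set (Fin n)) ×ˢ (L ×ˢ (univ : Set Bool))).Countable :=
        (to_countable _).prod (hL.prod (to_countable _))
      have := (countable_ofPred_finite_subset hS).preimage
        (Finset.coe_injective (α := Fin n × ι × Bool))
      refine this.mono ?_
      intro C hC
      refine ⟨C.finite_toSet, fun p hp => ⟨mem_univ _, hC p hp, mem_univ _⟩⟩
    refine (c1.prod c2).mono ?_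
    rintro ⟨N, C⟩ hNC
    simp only [mem_ofPred_eq] at hNC
    refine ⟨fun p hp => hNC ?_, fun t ht => hNC ?_⟩
    · rw [Finset.mem_coe, Finset.mem_union]
      exact Or.inl (Finset.mem_image_of_mem _ hp)
    · rw [Finset.mem_coe, Finset.mem_union]
      exact Or.inr (Finset.mem_image_of_mem (fun t : Fin n × ι × Bool => t.2.1) ht)
  obtain ⟨J', h1, h2, h3⟩ := closing
    (fun p : Finset (ι × countableBasis II) × Finset (Fin n × ι × Bool) =>
      ((p.1.image Prod.fst ∪ p.2.image (fun t => t.2.1) : Finset ι) : Set ι))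
    (fun p => (((h p).image Prod.fst : Finset ι) : Set ι))
    (fun p => Finset.countable_toSet _) (fun p => Finset.finite_toSet _) hcount J hJ
  · refine ⟨J', h1, h2, ?_⟩
    intro N C hN hC hne
    have hsupp : ((N.image Prod.fst ∪ C.image (fun t => t.2.1) : Finset ι) : Set ι) ⊆ J' := by
      intro i hi
      rw [Finset.mem_coe, Finset.mem_union] at hi
      rcases hi with hi | hi
      · obtain ⟨p, hp, rfl⟩ := Finset.mem_image.1 hi
        exact hN p hp
      · obtain ⟨t, ht, rfl⟩ := Finset.mem_image.1 hi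
        exact hC t ht
    have h4 := h3 (N, C) hsupp
    refine ⟨h (N, C), ?_, (hh (N, C) hne).1, (hh (N, C) hne).2⟩
    intro p hp
    exact h4 (Finset.mem_coe.2 (Finset.mem_image_of_mem _ hp))

/-- For closed `J`, the `J`-part of the fibre depends only on the `J`-part of the point. -/
lemma transfer {E : Set ((ι → II) × (Fin n → ι → Bool))} (hE : IsClosed E)
    (hfull : ∀ z, ∃ a, (z, a) ∈ E)
    (hmin : ∀ C : Set (Fin n → ι → Bool), IsOpen C → ∀ z a, a ∈ C → (z, a) ∈ E →
        z ∈ closure {z' | ∀ a', (z', a') ∈ E → a' ∈ C})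
    (hfin : ∀ z, {a | (z, a) ∈ E}.Finite) {J : Set ι} (hJ : JClosed E J) {z z' : ι → II}
    (hzz : ∀ i ∈ J, z' i = z i) {a : Fin n → ι → Bool} (ha : (z, a) ∈ E) :
    ∃ a', (z', a') ∈ E ∧ ∀ k, ∀ i ∈ J, a' k i = a k i := by
  classical
  by_contra hcon
  push Not at hcon
  have hc : ∀ a' : Fin n → ι → Bool, ∃ k i, (z', a') ∈ E → i ∈ J ∧ a' k i ≠ a k i := by
    intro a'
    by_cases h : (z', a') ∈ E
    · obtain ⟨k, i, hi, hne⟩ := hcon a' h
      exact ⟨k, i, fun _ => ⟨hi, hne⟩⟩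
    · by_cases hn : Nonempty (Fin n × ι)
      · exact ⟨hn.some.1, hn.some.2, fun h' => absurd h' h⟩
      · exfalso
        obtain ⟨a'', ha''⟩ := hfull z'
        obtain ⟨k, i, -, -⟩ := hcon a'' ha''
        exact hn ⟨(k, i)⟩
  choose κ θ hκ using hc
  set C : Finset (Fin n × ι × Bool) :=
    (hfin z').toFinset.image fun a' => (κ a', θ a', a (κ a') (θ a')) with hC
  have hCJ : ∀ t ∈ C, t.2.1 ∈ J := by
    intro t ht
    obtain ⟨a', ha', rfl⟩ := Finset.mem_image.1 ht
    exact (hκ a' (by simpa using ha')).1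
  have haC : a ∈ cyl C := by
    intro t ht
    obtain ⟨a', ha', rfl⟩ := Finset.mem_image.1 ht
    rfl
  have hz := hmin (cyl C) (isClopen_cyl C).isOpen z a haC ha
  have hz' : z' ∈ closure {z | ∀ a', (z, a') ∈ E → a' ∈ cyl C} := by
    rw [mem_closure_iff]
    intro V hV hzV
    obtain ⟨M, hM, hMV⟩ := exists_box hV hzV
    have hzM : z ∈ box (M.filter fun p => p.1 ∈ J) := by
      intro p hp
      rw [Finset.mem_filter] at hp
      rw [← hzz p.1 hp.2]
      exact hM p hp.1
    rw [mem_closure_iff] at hz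
    have hne := hz _ (isOpen_box (M.filter fun p => p.1 ∈ J)) hzM
    obtain ⟨N', hN'J, ⟨w, hw⟩, hN'⟩ := hJ (M.filter fun p => p.1 ∈ J) C
      (fun p hp => (Finset.mem_filter.1 hp).2) hCJ hne
    refine ⟨fun i => if i ∈ J then w i else z' i, ?_, ?_⟩
    · apply hMV
      intro p hp
      by_cases hpJ : p.1 ∈ J
      · simp only [hpJ, if_true]
        exact (hN' hw).1 p (Finset.mem_filter.2 ⟨hp, hpJ⟩)
      · simp only [hpJ, if_false]
        exact hM p hp
    · refine (hN' ?_).2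
      intro p hp
      have hpJ := hN'J p hp
      simp only [hpJ, if_true]
      exact hw p hp
  have hcl : IsClosed {z | ∃ a', a' ∈ cyl C ∧ (z, a') ∈ E} := by
    have h : IsClosed (E ∩ {p | p.2 ∈ cyl C}) :=
      hE.inter ((isClopen_cyl C).isClosed.preimage continuous_snd)
    have := isClosedMap_fst_of_compactSpace _ h
    convert this using 1
    ext z
    constructor
    · rintro ⟨a, ha, ha'⟩
      exact ⟨(z, a), ⟨ha', ha⟩, rfl⟩
    · rintro ⟨⟨z', a⟩, ⟨ha, ha'⟩, rfl⟩
      exact ⟨a, ha', ha⟩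
  have hz'' : z' ∈ {z | ∃ a', a' ∈ cyl C ∧ (z, a') ∈ E} := by
    refine hcl.closure_subset_iff.2 ?_ hz'
    intro y hy
    obtain ⟨a', ha'⟩ := hfull y
    exact ⟨a', hy a' ha', ha'⟩
  obtain ⟨a', ha'C, ha'⟩ := hz''
  have h1 := ha'C (κ a', θ a', a (κ a') (θ a'))
    (Finset.mem_image.2 ⟨a', by simpa using ha', rfl⟩)
  exact (hκ a' ha').2 h1

end Pool.Agent.H5.TE
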