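import Pool.Agent.H5.TE3

set_option autoImplicit false

open Set Topology TopologicalSpace

namespace Pool.Agent.H5.TE

universe u

variable {ι : Type u} {n : ℕ}

lemma branch (Φ : C(ι → Bool, ℝ) → (ι → II) → ℝ) {δ : ℝ} (hδ : 0 < δ)
    {Q K : Set ι} {c : ι → II} (hQK : Q ⊆ K) (hc : ∀ i ∈ Q, c i = 0) {T : Finset ι → Finset ι}
    (hbT : ∀ b, b ⊆ T b)
    (hT : ∀ b, ∀ x : ι → II, (∀ i ∈ T b, x i = 0 ∨ x i = 1) → ∀ v : ι → Bool,
      (∀ i ∈ b, x i = emb v i) → 1 / 2 < Φ (ind b v) x)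
    (hroot : ∀ m : ℕ, ∀ J : Set ι, J.Countable → ∃ b : Finset ι, b.card = m ∧
      (∀ i ∈ b, i ∉ J) ∧ ∀ i ∈ T b, i ∈ J → i ∈ Q)
    {E : Set ((ι → II) × (Fin n → ι → Bool))} (hE : IsClosed E)
    (hES : ∀ p ∈ E, ∀ x : ι → II, (∀ i ∈ K, x i = c i) → (∀ i ∉ K, x i = p.1 i) →
      p.2 ∈ Supp Φ n δ x)
    (hfull : ∀ z, ∃ a, (z, a) ∈ E)
    (hmin : ∀ C : Set (Fin n → ι → Bool), IsOpen C → ∀ z a, a ∈ C → (z, a) ∈ E →
        z ∈ closure {z' | ∀ a', (z', a') ∈ E → a' ∈ C})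
    (hfin : ∀ z, {a | (z, a) ∈ E}.Finite) {J : Set ι} (hJc : J.Countable) (hKJ : K ⊆ J)
    (hJ : JClosed E J) {z : ι → II} {a : Fin n → ι → Bool} (ha : (z, a) ∈ E) :
    ∃ z' : ι → II, (∀ i ∈ J, z' i = z i) ∧ ∃ a' a'', (z', a') ∈ E ∧ (z', a'') ∈ E ∧
      (∀ k, ∀ i ∈ J, a' k i = a k i) ∧ (∀ k, ∀ i ∈ J, a'' k i = a k i) ∧ a' ≠ a'' := by
  classical
  obtain ⟨b, hbn, hbJ, hTJ⟩ := hroot n J hJc
  let zt : (ι → II) → (ι → II) := fun t i => if i ∈ T b ∧ i ∉ Q then t i else z i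
  have hzt : Continuous zt := by
    refine continuous_pi fun i => ?_
    by_cases hi : i ∈ T b ∧ i ∉ Q
    · simp only [zt, hi, not_false_eq_true, and_self, if_true]; exact continuous_apply i
    · simp only [zt, hi, if_false]; exact continuous_const
  have hztJ : ∀ t, ∀ i ∈ J, zt t i = z i := by
    intro t i hi
    have : ¬ (i ∈ T b ∧ i ∉ Q) := fun h => h.2 (hTJ i h.1 hi)
    simp only [zt, this, if_false]
  by_contra hcon
  have huniq : ∀ t, ∀ a' a'', (zt t, a') ∈ E → (zt t, a'') ∈ E →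
      (∀ k, ∀ i ∈ J, a' k i = a k i) → (∀ k, ∀ i ∈ J, a'' k i = a k i) → a' = a'' := by
    intro t a' a'' h1 h2 h3 h4
    by_contra hne
    exact hcon ⟨zt t, hztJ t, a', a'', h1, h2, h3, h4, hne⟩
  have hex := fun t => transfer hE hfull hmin hfin hJ (z' := zt t) (hztJ t) ha
  choose α hα hαJ using hex
  have hαc : Continuous α := by
    rw [continuous_iff_isClosed]
    intro S hS
    have h1 : IsClosed {p : (ι → II) × (Fin n → ι → Bool) | (zt p.1, p.2) ∈ E} :=
      hE.preimage ((hzt.comp continuous_fst).prodMk continuous_snd)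
    have h2 : IsClosed {p : (ι → II) × (Fin n → ι → Bool) | ∀ k, ∀ i ∈ J, p.2 k i = a k i} := by
      simp only [ofPred_forall]
      refine isClosed_iInter fun k => isClosed_iInter fun i => isClosed_iInter fun _ => ?_
      exact isClosed_eq ((continuous_apply i).comp ((continuous_apply k).comp continuous_snd))
        continuous_const
    have h3 := isClosedMap_fst_of_compactSpace _ ((h1.inter h2).inter (hS.preimage continuous_snd))
    convert h3 using 1
    ext t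
    constructor
    · intro ht
      exact ⟨(t, α t), ⟨⟨hα t, hαJ t⟩, ht⟩, rfl⟩
    · rintro ⟨⟨t', a'⟩, ⟨⟨h4, h5⟩, h6⟩, rfl⟩
      have := huniq t' a' (α t') h4 (hα t') h5 (hαJ t')
      simp only [mem_preimage] at h6 ⊢
      rw [← this]
      exact h6
  have hconst : ∀ t t', α t = α t' := by
    intro t t'
    have h1 : IsPreconnected (range α) := isPreconnected_range hαc
    exact h1.subsingleton (mem_range_self t) (mem_range_self t')
  -- a pattern that is not attained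
  set a0 := α (fun _ => 0) with ha0
  obtain ⟨v, hv⟩ : ∃ v : ι → Bool, ∀ k, ∃ i ∈ b, a0 k i ≠ v i := by
    have hns : ¬ Function.Surjective (fun (k : Fin n) (i : b) => a0 k i) := by
      intro hs
      have h1 := Fintype.card_le_of_surjective _ hs
      simp only [Fintype.card_fun, Fintype.card_bool, Fintype.card_coe, Fintype.card_fin, hbn] at h1
      exact absurd h1 (not_le.2 Nat.lt_two_pow_self)
    rw [Function.Surjective] at hns
    push Not at hns
    obtain ⟨p, hp⟩ := hns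
    refine ⟨fun i => if h : i ∈ b then p ⟨i, h⟩ else false, fun k => ?_⟩
    have := hp k
    rw [Function.ne_iff] at this
    obtain ⟨i, hi⟩ := this
    exact ⟨i.1, i.2, by simpa using hi⟩
  let x : ι → II := fun i => if i ∈ K then c i else zt (emb v) i
  have hx01 : ∀ i ∈ T b, x i = 0 ∨ x i = 1 := by
    intro i hi
    by_cases hiK : i ∈ K
    · have hiQ : i ∈ Q := hTJ i hi (hKJ hiK)
      left
      simp only [x, hiK, if_true]
      exact hc i hiQ
    · have hiQ : i ∉ Q := fun h => hiK (hQK h)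
      simp only [x, hiK, if_false, zt, hi, hiQ, not_false_eq_true, and_self, if_true, emb]
      by_cases hvi : v i = true
      · right; simp [hvi]
      · left; simp [hvi]
  have hxb : ∀ i ∈ b, x i = emb v i := by
    intro i hi
    have hiJ := hbJ i hi
    have hiK : i ∉ K := fun h => hiJ (hKJ h)
    have hiQ : i ∉ Q := fun h => hiK (hQK h)
    simp only [x, hiK, if_false, zt, hbT b hi, hiQ, not_false_eq_true, and_self, if_true]
  have hbig := hT b x hx01 v hxb
  have hsupp := hES (zt (emb v), α (emb v)) (hα _) x (fun i hi => by simp [x, hi])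
    (fun i hi => by simp [x, hi])
  have hsmall := hsupp (ind b v) (by
    intro k
    obtain ⟨i, hi, hne⟩ := hv k
    have h1 : (zt (emb v), α (emb v)).2 = a0 := hconst _ _
    rw [h1, ind_eq_zero hi hne, abs_zero]
    exact hδ)
  have h2 := le_abs_self (Φ (ind b v) x)
  linarith

/-- The state of the recursion. -/
structure St (K : Set ι) (E : Set ((ι → II) × (Fin n → ι → Bool))) where
  z : ι → II
  J : Set ι
  A : Finset (Fin n → ι → Bool)
  cJ : J.Countable
  KJ : K ⊆ J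
  clJ : JClosed E J
  mem : ∀ a ∈ A, (z, a) ∈ E
  sep : ∀ a ∈ A, ∀ a' ∈ A, (∀ k, ∀ i ∈ J, a k i = a' k i) → a = a'
  ne : A.Nonempty

lemma St.step {K : Set ι} {E : Set ((ι → II) × (Fin n → ι → Bool))} (hE : IsClosed E)
    (hfull : ∀ z, ∃ a, (z, a) ∈ E)
    (hmin : ∀ C : Set (Fin n → ι → Bool), IsOpen C → ∀ z a, a ∈ C → (z, a) ∈ E →
        z ∈ closure {z' | ∀ a', (z', a') ∈ E → a' ∈ C})
    (hfin : ∀ z, {a | (z, a) ∈ E}.Finite)
    (hbranch : ∀ J : Set ι, J.Countable → K ⊆ J → JClosed E J → ∀ (z : ι → II)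
      (a : Fin n → ι → Bool), (z, a) ∈ E →
      ∃ z' : ι → II, (∀ i ∈ J, z' i = z i) ∧ ∃ a' a'', (z', a') ∈ E ∧ (z', a'') ∈ E ∧
      (∀ k, ∀ i ∈ J, a' k i = a k i) ∧ (∀ k, ∀ i ∈ J, a'' k i = a k i) ∧ a' ≠ a'')
    (s : St K E) : ∃ s' : St K E, s.J ⊆ s'.J ∧ (∀ i ∈ s.J, s'.z i = s.z i) ∧
      s'.A.card = s.A.card + 1 := by
  classical
  obtain ⟨a0, ha0⟩ := s.ne
  obtain ⟨z', hz', a', a'', ha', ha'', ha'J, ha''J, hne⟩ :=
    hbranch s.J s.cJ s.KJ s.clJ s.z a0 (s.mem a0 ha0)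
  have hl : ∀ a, ∃ l : Fin n → ι → Bool, a ∈ s.A → (z', l) ∈ E ∧ ∀ k, ∀ i ∈ s.J, l k i = a k i := by
    intro a
    by_cases h : a ∈ s.A
    · obtain ⟨l, hl⟩ := transfer hE hfull hmin hfin s.clJ hz' (s.mem a h)
      exact ⟨l, fun _ => hl⟩
    · exact ⟨a, fun h' => absurd h' h⟩
  choose l hl using hl
  obtain ⟨k1, hk1⟩ := Function.ne_iff.1 hne
  obtain ⟨i1, hi1⟩ := Function.ne_iff.1 hk1
  obtain ⟨J', hJ', hJ'c, hJ'cl⟩ := exists_jclosed hE (s.cJ.union (countable_singleton i1))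
  have hsub : s.J ⊆ J' := subset_union_left.trans hJ'
  have hi1J : i1 ∈ J' := hJ' (Or.inr rfl)
  have hlinj : ∀ a ∈ s.A, ∀ b ∈ s.A, (∀ k, ∀ i ∈ s.J, l a k i = l b k i) → a = b := by
    intro a ha b hb h
    apply s.sep a ha b hb
    intro k i hi
    rw [← (hl a ha).2 k i hi, ← (hl b hb).2 k i hi]
    exact h k i hi
  have hx : ∀ x : Fin n → ι → Bool, (∀ k, ∀ i ∈ s.J, x k i = a0 k i) → ∀ b ∈ s.A.erase a0,
      ¬ ∀ k, ∀ i ∈ s.J, x k i = l b k i := by
    intro x hx b hb h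
    rw [Finset.mem_erase] at hb
    apply hb.1
    apply s.sep b hb.2 a0 ha0
    intro k i hi
    rw [← (hl b hb.2).2 k i hi, ← h k i hi, hx k i hi]
  have hA1 : ∀ y ∈ (s.A.erase a0).image l, ∃ b ∈ s.A.erase a0, l b = y := fun y hy =>
    Finset.mem_image.1 hy
  have h'notin : a' ∉ (s.A.erase a0).image l := by
    intro h
    obtain ⟨b, hb, hbe⟩ := hA1 _ h
    exact hx a' ha'J b hb fun k i _ => by rw [hbe]
  have h''notin : a'' ∉ (s.A.erase a0).image l := by
    intro h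
    obtain ⟨b, hb, hbe⟩ := hA1 _ h
    exact hx a'' ha''J b hb fun k i _ => by rw [hbe]
  refine ⟨⟨z', J', insert a' (insert a'' ((s.A.erase a0).image l)), hJ'c, s.KJ.trans hsub, hJ'cl,
    ?_, ?_, Finset.insert_nonempty _ _⟩, hsub, hz', ?_⟩
  · intro y hy
    simp only [Finset.mem_insert] at hy
    rcases hy with rfl | rfl | hy
    · exact ha'
    · exact ha''
    · obtain ⟨b, hb, rfl⟩ := hA1 _ hy
      exact (hl b (Finset.mem_of_mem_erase hb)).1
  · intro x hxm y hym hxy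
    simp only [Finset.mem_insert] at hxm hym
    have hxyJ : ∀ k, ∀ i ∈ s.J, x k i = y k i := fun k i hi => hxy k i (hsub hi)
    rcases hxm with rfl | rfl | hxm <;> rcases hym with rfl | rfl | hym
    · rfl
    · exact absurd (hxy k1 i1 hi1J) hi1
    · obtain ⟨b, hb, rfl⟩ := hA1 _ hym
      exact absurd hxyJ (hx _ ha'J b hb)
    · exact absurd (hxy k1 i1 hi1J).symm hi1
    · rfl
    · obtain ⟨b, hb, rfl⟩ := hA1 _ hym
      exact absurd hxyJ (hx _ ha''J b hb)
    · obtain ⟨b, hb, rfl⟩ := hA1 _ hxm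
      exact absurd (fun k i hi => (hxyJ k i hi).symm) (hx _ ha'J b hb)
    · obtain ⟨b, hb, rfl⟩ := hA1 _ hxm
      exact absurd (fun k i hi => (hxyJ k i hi).symm) (hx _ ha''J b hb)
    · obtain ⟨b, hb, rfl⟩ := hA1 _ hxm
      obtain ⟨b', hb', rfl⟩ := hA1 _ hym
      rw [hlinj b (Finset.mem_of_mem_erase hb) b' (Finset.mem_of_mem_erase hb') hxyJ]
  · rw [Finset.card_insert_of_notMem, Finset.card_insert_of_notMem h''notin,
      Finset.card_image_of_injOn, Finset.card_erase_of_mem ha0]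
    · have := Finset.card_pos.2 ⟨a0, ha0⟩
      omega
    · intro a ha b hb hab
      rw [Finset.mem_coe] at ha hb
      refine hlinj a (Finset.mem_of_mem_erase ha) b (Finset.mem_of_mem_erase hb) fun k i _ => ?_
      rw [hab]
    · simp only [Finset.mem_insert, not_or]
      exact ⟨hne, h'notin⟩

/-- There is no good family of functionals. -/
theorem no_family [Uncountable ι] (Φ : C(ι → Bool, ℝ) → (ι → II) → ℝ)
    (h1 : ∀ f, Continuous (Φ f))
    (h2 : ∀ x f, ∀ ε > 0, ∃ (A : Finset (ι → Bool)) (δ : ℝ), 0 < δ ∧ ∀ g : C(ι → Bool, ℝ),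
      (∀ a ∈ A, |g a - f a| < δ) → |Φ g x - Φ f x| < ε) (h0 : ∀ x, Φ 0 x = 0)
    (h3 : ∀ f y, Φ f (emb y) = f y) : False := by
  classical
  choose T hbT hT using fun b => exists_vertex_finset Φ h1 h3 b
  obtain ⟨Q, hQ, hroot⟩ := root_all T
  obtain ⟨n, δ, K, c, hδ, hK, hQK, hc, hne, hmin⟩ := subcube Φ h1 h2 h0 hQ
  let q : (ι → II) → (ι → II) := fun z i => if i ∈ K then c i else z i
  have hq : Continuous q := by
    refine continuous_pi fun i => ?_
    by_cases hi : i ∈ K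
    · simp only [q, hi, if_true]; exact continuous_const
    · simp only [q, hi, if_false]; exact continuous_apply i
  have hqK : ∀ z, ∀ i ∈ K, q z i = c i := fun z i hi => by simp [q, hi]
  obtain ⟨E, hE, hEΓ, hfull, hEmin⟩ := min_rel
    {p : (ι → II) × (Fin n → ι → Bool) | p.2 ∈ Supp Φ n δ (q p.1)}
    ((isClosed_supp Φ h1 n δ).preimage ((hq.comp continuous_fst).prodMk continuous_snd))
    (fun z => hne (q z) (hqK z))
  have hfin : ∀ z, {a | (z, a) ∈ E}.Finite := fun z =>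
    (finite_supp Φ h2 hδ (hmin (q z) (hqK z))).subset fun a ha => hEΓ ha
  have hES : ∀ p ∈ E, ∀ x : ι → II, (∀ i ∈ K, x i = c i) → (∀ i ∉ K, x i = p.1 i) →
      p.2 ∈ Supp Φ n δ x := by
    intro p hp x hx1 hx2
    have : x = q p.1 := by
      funext i
      by_cases hi : i ∈ K
      · simp only [q, hi, if_true]; exact hx1 i hi
      · simp only [q, hi, if_false]; exact hx2 i hi
    rw [this]
    exact hEΓ hp
  have hbr : ∀ J : Set ι, J.Countable → K ⊆ J → JClosed E J → ∀ (z : ι → II)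
      (a : Fin n → ι → Bool), (z, a) ∈ E →
      ∃ z' : ι → II, (∀ i ∈ J, z' i = z i) ∧ ∃ a' a'', (z', a') ∈ E ∧ (z', a'') ∈ E ∧
      (∀ k, ∀ i ∈ J, a' k i = a k i) ∧ (∀ k, ∀ i ∈ J, a'' k i = a k i) ∧ a' ≠ a'' :=
    fun J hJ hKJ hJc z a ha => branch Φ hδ hQK hc hbT hT hroot hE hES hfull hEmin hfin hJ hKJ hJc ha
  choose nxt hn1 hn2 hn3 using fun s : St K E => St.step hE hfull hEmin hfin hbr s
  obtain ⟨J0, hJ0, hJ0c, hJ0cl⟩ := exists_jclosed hE hK
  obtain ⟨a0, ha0⟩ := hfull (fun _ => 0)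
  let s0 : St K E := ⟨fun _ => 0, J0, {a0}, hJ0c, hJ0, hJ0cl, by simpa using ha0, by simp, by simp⟩
  let s : ℕ → St K E := fun m => Nat.rec s0 (fun _ t => nxt t) m
  have hs : ∀ m, s (m + 1) = nxt (s m) := fun m => rfl
  have hcard : ∀ m, (s m).A.card = m + 1 := by
    intro m
    induction m with
    | zero => simp [s, s0]
    | succ m ih => rw [hs, hn3, ih]
  have hmono : ∀ m m', m ≤ m' → (s m).J ⊆ (s m').J ∧ ∀ i ∈ (s m).J, (s m').z i = (s m).z i := by
    intro m m' hmm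
    induction m', hmm using Nat.le_induction with
    | base => exact ⟨Subset.rfl, fun _ _ => rfl⟩
    | succ m' _ ih =>
      refine ⟨ih.1.trans (by rw [hs]; exact hn1 _), fun i hi => ?_⟩
      rw [hs, hn2 _ i (ih.1 hi), ih.2 i hi]
  let zω : ι → II := fun i => if h : ∃ m, i ∈ (s m).J then (s (Nat.find h)).z i else 0
  have hzω : ∀ m, ∀ i ∈ (s m).J, zω i = (s m).z i := by
    intro m i hi
    have h : ∃ m, i ∈ (s m).J := ⟨m, hi⟩
    simp only [zω, h, dif_pos]
    exact ((hmono _ _ (Nat.find_min' h hi)).2 i (Nat.find_spec h)).symm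
  set M := (hfin zω).toFinset.card with hM
  have hl : ∀ a, ∃ l : Fin n → ι → Bool, a ∈ (s M).A →
      (zω, l) ∈ E ∧ ∀ k, ∀ i ∈ (s M).J, l k i = a k i := by
    intro a
    by_cases h : a ∈ (s M).A
    · obtain ⟨l, hl⟩ := transfer hE hfull hEmin hfin (s M).clJ (hzω M) ((s M).mem a h)
      exact ⟨l, fun _ => hl⟩
    · exact ⟨a, fun h' => absurd h' h⟩
  choose l hl using hl
  have h5 : (s M).A.card ≤ (hfin zω).toFinset.card := by
    refine Finset.card_le_card_of_injOn l (fun a ha => ?_) ?_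
    · simpa using (hl a ha).1
    · intro a ha b hb hab
      rw [Finset.mem_coe] at ha hb
      apply (s M).sep a ha b hb
      intro k i hi
      rw [← (hl a ha).2 k i hi, ← (hl b hb).2 k i hi, hab]
  rw [hcard M] at h5
  omega

end Pool.Agent.H5.TE
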